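import Mathlib
import Pool.Agent.Lib.helper11.Mahler

set_option autoImplicit false

namespace Pool.Agent.H.MP_96deef_nt

open PowerSeries Finset Pool.Agent.Lib.helper11.Mahler

abbrev R := ZMod 64

abbrev St := ℕ × ℕ × ℕ × ℕ

noncomputable def z : R⟦X⟧ := X * geo R 1

lemma g1 : geo R 1 * (1 - X) = 1 := by simpa using geo_mul (R := R) 1 one_ne_zero

lemma g2 : geo R 2 * (1 - X ^ 2) = 1 := geo_mul (R := R) 2 two_ne_zero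

lemma g12 : geo R 1 = (1 + X) * geo R 2 := by
  linear_combination (-geo R 1) * g2 + (1 + X) * geo R 2 * g1

lemma split0 (a b : R⟦X⟧) (n : ℕ) :
    coeff (2 * n) (expand 2 two_ne_zero a + X * expand 2 two_ne_zero b) = coeff n a := by
  rw [map_add, coeff_expand_mul]
  rcases n with _ | n
  · simp
  · rw [show 2 * (n + 1) = 2 * n + 1 + 1 by ring, coeff_succ_X_mul,
      coeff_expand_of_not_dvd _ _ _ (by omega), add_zero]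

lemma split1 (a b : R⟦X⟧) (n : ℕ) :
    coeff (2 * n + 1) (expand 2 two_ne_zero a + X * expand 2 two_ne_zero b) = coeff n b := by
  rw [map_add, coeff_succ_X_mul, coeff_expand_mul, coeff_expand_of_not_dvd _ _ _ (by omega),
    zero_add]

lemma castmod (x : ℕ) : ((x % 64 : ℕ) : R⟦X⟧) = x := by
  rw [← map_natCast (C : R →+* R⟦X⟧), ← map_natCast (C : R →+* R⟦X⟧), ZMod.natCast_mod]

noncomputable def F (w : St) : R⟦X⟧ :=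
  w.1 + w.2.1 * z + w.2.2.1 * z ^ 2 + w.2.2.2 * z ^ 3

def s0 (w : St) : St := ((1 * w.1 + 0 * w.2.1 + 0 * w.2.2.1 + 0 * w.2.2.2) % 64, (18 * w.1 + 7 * w.2.1 + 1 * w.2.2.1 + 0 * w.2.2.2) % 64, (48 * w.1 + 56 * w.2.1 + 32 * w.2.2.1 + 9 * w.2.2.2) % 64, (32 * w.1 + 112 * w.2.1 + 160 * w.2.2.1 + 120 * w.2.2.2) % 64)

def t0 (w : St) : ℕ × ℕ × ℕ := ((0 * w.1 + 64 * w.2.1 + 256 * w.2.2.1 + 432 * w.2.2.2) % 64, (0 * w.1 + 0 * w.2.1 + 128 * w.2.2.1 + 576 * w.2.2.2) % 64, (0 * w.1 + 0 * w.2.1 + 0 * w.2.2.1 + 256 * w.2.2.2) % 64)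

def s1 (w : St) : St := ((6 * w.1 + 1 * w.2.1 + 0 * w.2.2.1 + 0 * w.2.2.2) % 64, (38 * w.1 + 25 * w.2.1 + 8 * w.2.2.1 + 1 * w.2.2.2) % 64, (64 * w.1 + 104 * w.2.1 + 88 * w.2.2.1 + 41 * w.2.2.2) % 64, (32 * w.1 + 144 * w.2.1 + 272 * w.2.2.1 + 280 * w.2.2.2) % 64)

def t1 (w : St) : ℕ × ℕ × ℕ := ((0 * w.1 + 64 * w.2.1 + 320 * w.2.2.1 + 688 * w.2.2.2) % 64, (0 * w.1 + 0 * w.2.1 + 128 * w.2.2.1 + 704 * w.2.2.2) % 64, (0 * w.1 + 0 * w.2.1 + 0 * w.2.2.1 + 256 * w.2.2.2) % 64)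

lemma trans (w : St) (h0 : t0 w = 0) (h1 : t1 w = 0) : F w * (1 + 2 * z) ^ 3 =
    expand 2 two_ne_zero (F (s0 w)) + X * expand 2 two_ne_zero (F (s1 w)) := by
  obtain ⟨a, b, c, d⟩ := w
  simp only [t0, t1, Prod.mk_eq_zero] at h0 h1
  obtain ⟨h04, h05, h06⟩ := h0
  obtain ⟨h14, h15, h16⟩ := h1
  have e04 := congrArg (Nat.cast : ℕ → R⟦X⟧) h04
  have e05 := congrArg (Nat.cast : ℕ → R⟦X⟧) h05
  have e06 := congrArg (Nat.cast : ℕ → R⟦X⟧) h06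
  have e14 := congrArg (Nat.cast : ℕ → R⟦X⟧) h14
  have e15 := congrArg (Nat.cast : ℕ → R⟦X⟧) h15
  have e16 := congrArg (Nat.cast : ℕ → R⟦X⟧) h16
  have hZ : expand 2 two_ne_zero z = geo R 2 - 1 := by
    simp only [z, map_mul, expand_X, expand_geo]
    linear_combination -g2
  have hz : z = X * geo R 2 + (geo R 2 - 1) := by
    rw [z, g12]
    linear_combination -g2
  have hy : (X * geo R 2) ^ 2 - (geo R 2 - 1) - (geo R 2 - 1) ^ 2 = 0 := by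
    linear_combination (-geo R 2) * g2
  simp only [F, s0, s1, map_add, map_mul, map_pow, map_natCast, hZ, castmod] at *
  push_cast at *
  rw [hz]
  generalize (a : R⟦X⟧) = a at *
  generalize (b : R⟦X⟧) = b at *
  generalize (c : R⟦X⟧) = c at *
  generalize (d : R⟦X⟧) = d at *
  generalize geo R 2 = g at *
  obtain ⟨Z, rfl⟩ : ∃ Z, g = Z + 1 := ⟨g - 1, by ring⟩
  simp only [add_sub_cancel_right] at *
  obtain ⟨y, hy'⟩ : ∃ y, y = X * (Z + 1) := ⟨_, rfl⟩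
  have key : (a + b * (y + Z) + c * (y + Z) ^ 2 + d * (y + Z) ^ 3) * (1 + 2 * (y + Z)) ^ 3 =
      ((1 * a + 0 * b + 0 * c + 0 * d) * Z ^ 0 + (18 * a + 7 * b + 1 * c + 0 * d) * Z ^ 1 + (48 * a + 56 * b + 32 * c + 9 * d) * Z ^ 2 + (32 * a + 112 * b + 160 * c + 120 * d) * Z ^ 3 + (0 * a + 64 * b + 256 * c + 432 * d) * Z ^ 4 + (0 * a + 0 * b + 128 * c + 576 * d) * Z ^ 5 + (0 * a + 0 * b + 0 * c + 256 * d) * Z ^ 6) +
      X * ((6 * a + 1 * b + 0 * c + 0 * d) * Z ^ 0 + (38 * a + 25 * b + 8 * c + 1 * d) * Z ^ 1 + (64 * a + 104 * b + 88 * c + 41 * d) * Z ^ 2 + (32 * a + 144 * b + 272 * c + 280 * d) * Z ^ 3 + (0 * a + 64 * b + 320 * c + 688 * d) * Z ^ 4 + (0 * a + 0 * b + 128 * c + 704 * d) * Z ^ 5 + (0 * a + 0 * b + 0 * c + 256 * d) * Z ^ 6) := by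
    rw [← hy'] at hy
    linear_combination (a * ((12) * y ^ 0 * Z ^ 0 + (24) * y ^ 0 * Z ^ 1 + (8) * y ^ 1 * Z ^ 0) + b * ((6) * y ^ 0 * Z ^ 0 + (44) * y ^ 0 * Z ^ 1 + (56) * y ^ 0 * Z ^ 2 + (12) * y ^ 1 * Z ^ 0 + (32) * y ^ 1 * Z ^ 1 + (8) * y ^ 2 * Z ^ 0) + c * ((1) * y ^ 0 * Z ^ 0 + (30) * y ^ 0 * Z ^ 1 + (124) * y ^ 0 * Z ^ 2 + (120) * y ^ 0 * Z ^ 3 + (6) * y ^ 1 * Z ^ 0 + (56) * y ^ 1 * Z ^ 1 + (88) * y ^ 1 * Z ^ 2 + (12) * y ^ 2 * Z ^ 0 + (40) * y ^ 2 * Z ^ 1 + (8) * y ^ 3 * Z ^ 0) + d * ((9) * y ^ 0 * Z ^ 1 + (110) * y ^ 0 * Z ^ 2 + (316) * y ^ 0 * Z ^ 3 + (248) * y ^ 0 * Z ^ 4 + (1) * y ^ 1 * Z ^ 0 + (36) * y ^ 1 * Z ^ 1 + (180) * y ^ 1 * Z ^ 2 + (208) * y ^ 1 * Z ^ 3 + (6) * y ^ 2 * Z ^ 0 + (68) * y ^ 2 * Z ^ 1 + (128) * y ^ 2 * Z ^ 2 + (12) * y ^ 3 * Z ^ 0 + (48) * y ^ 3 * Z ^ 1 + (8) * y ^ 4 * Z ^ 0)) * hy + (a * ((6) *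 Z ^ 0 + (32) * Z ^ 1 + (32) * Z ^ 2 + (0) * Z ^ 3 + (0) * Z ^ 4 + (0) * Z ^ 5) + b * ((1) * Z ^ 0 + (24) * Z ^ 1 + (80) * Z ^ 2 + (64) * Z ^ 3 + (0) * Z ^ 4 + (0) * Z ^ 5) + c * ((0) * Z ^ 0 + (8) * Z ^ 1 + (80) * Z ^ 2 + (192) * Z ^ 3 + (128) * Z ^ 4 + (0) * Z ^ 5) + d * ((0) * Z ^ 0 + (1) * Z ^ 1 + (40) * Z ^ 2 + (240) * Z ^ 3 + (448) * Z ^ 4 + (256) * Z ^ 5)) * hy'
  rw [← hy', key]
  linear_combination Z ^ 4 * e04 + Z ^ 5 * e05 + Z ^ 6 * e06 + X * (Z ^ 4 * e14 + Z ^ 5 * e15 + Z ^ 6 * e16)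

def S : List St := [(6, 38, 0, 32), (24, 8, 48, 0), (6, 54, 16, 32), (10, 58, 16, 32), (24, 24, 0, 0), (26, 10, 16, 32), (10, 26, 48, 32), (54, 6, 48, 32), (40, 40, 0, 0), (26, 42, 48, 32), (38, 54, 48, 32), (22, 38, 48, 32), (54, 38, 16, 32), (6, 22, 48, 32), (38, 22, 16, 32), (22, 6, 16, 32), (42, 26, 16, 32), (58, 42, 16, 32), (42, 58, 48, 32), (58, 10, 48, 32)]

def S0 : List St := [(1, 0, 0, 0), (1, 18, 48, 32)]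

def V : List ℕ := [6, 10, 22, 24, 26, 38, 40, 42, 54, 58]

lemma cl : ∀ w ∈ S, t0 w = 0 ∧ t1 w = 0 ∧ s0 w ∈ S ∧ s1 w ∈ S ∧ w.1 ∈ V := by decide +kernel

lemma cl0 : ∀ w ∈ S0, t0 w = 0 ∧ t1 w = 0 ∧ s0 w ∈ S0 ∧ s1 w ∈ S := by decide +kernel

noncomputable def P (N : ℕ) : R⟦X⟧ := geo R 1 ^ 3 * ∏ i ∈ range N, geo R (2 ^ i) ^ 3

lemma P_succ (N : ℕ) : P (N + 1) = (1 + 2 * z) ^ 3 * expand 2 two_ne_zero (P N) := by
  have h : (1 + 2 * z) * geo R 2 = geo R 1 * geo R 1 := by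
    rw [z]
    linear_combination (-geo R 2) * g1 - geo R 1 * g12
  rw [P, P, prod_range_succ', map_mul, map_prod]
  simp only [map_pow, expand_geo, ← pow_succ', pow_zero, mul_one]
  rw [← mul_assoc ((1 + 2 * z) ^ 3), ← mul_pow, h]
  ring

lemma FP (w : St) (h0 : t0 w = 0) (h1 : t1 w = 0) (N : ℕ) : F w * P (N + 1) =
    expand 2 two_ne_zero (F (s0 w) * P N) + X * expand 2 two_ne_zero (F (s1 w) * P N) := by
  rw [P_succ, ← mul_assoc, trans w h0 h1, map_mul, map_mul]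
  ring

lemma memA (N n : ℕ) (hn : n < 2 ^ N) (w : St) (hw : w ∈ S) :
    ∃ v ∈ V, coeff n (F w * P N) = (v : R) := by
  induction N generalizing n w with
  | zero =>
    obtain rfl : n = 0 := by simpa using hn
    exact ⟨_, (cl w hw).2.2.2.2, by simp [F, P, z, geo]⟩
  | succ N ih =>
    obtain ⟨h0, h1, h2, h3, -⟩ := cl w hw
    rw [FP w h0 h1]
    obtain ⟨k, rfl | rfl⟩ := Nat.even_or_odd' n
    · rw [split0]
      exact ih k (by omega) _ h2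
    · rw [split1]
      exact ih k (by omega) _ h3

lemma memB (N n : ℕ) (hn : n < 2 ^ N) (h : 0 < n) (w : St) (hw : w ∈ S0) :
    ∃ v ∈ V, coeff n (F w * P N) = (v : R) := by
  induction N generalizing n w with
  | zero => omega
  | succ N ih =>
    obtain ⟨h0, h1, h2, h3⟩ := cl0 w hw
    rw [FP w h0 h1]
    obtain ⟨k, rfl | rfl⟩ := Nat.even_or_odd' n
    · rw [split0]
      exact ih k (by omega) (by omega) _ h2
    · rw [split1]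
      exact memA N k (by omega) _ h3

theorem main (n : ℕ) (h : 0 < n) : ∃ v ∈ V,
    ((coeff n (geo ℤ 1 ^ 3 * ∏ i ∈ range (n + 1), geo ℤ (2 ^ i) ^ 3) : ℤ) : R) = (v : R) := by
  have := memB (n + 1) n ((Nat.lt_succ_self n).trans (Nat.lt_pow_self (by norm_num))) h
    (1, 0, 0, 0) (by decide)
  rw [← eq_intCast (Int.castRingHom R), ← coeff_map, map_mul, map_pow, map_prod]
  simpa [F, P, map_geo] using this

end Pool.Agent.H.MP_96deef_nt
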